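import Pool.Agent.H418R3.EF.Stmts

/-! Project H418-EF: `TaskT2`. -/

set_option autoImplicit false

namespace Pool.Agent.H12R3.EFT2

open scoped Pointwise
open Pool.Agent.H418R3.EF

/-- the rank one group of `A` in direction `v` -/
def Av (A : AddSubgroup (V 2)) (v : V 2) : AddSubgroup ℚ where
  carrier := {q | q • v ∈ A}
  zero_mem' := by
    show (0 : ℚ) • v ∈ A
    rw [zero_smul]; exact A.zero_mem
  add_mem' := by
    intro a b ha hb
    show (a + b) • v ∈ A
    rw [add_smul]; exact A.add_mem ha hb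
  neg_mem' := by
    intro a ha
    show (-a) • v ∈ A
    rw [neg_smul]; exact A.neg_mem ha

theorem mem_Av (A : AddSubgroup (V 2)) (v : V 2) (q : ℚ) : q ∈ Av A v ↔ q • v ∈ A := Iff.rfl

/-- equivalence up to a rational factor -/
def Eqv (X Y : AddSubgroup ℚ) : Prop := ∃ q : ℚˣ, q • X = Y

theorem Eqv.symm {X Y : AddSubgroup ℚ} (h : Eqv X Y) : Eqv Y X := by
  obtain ⟨q, hq⟩ := h
  exact ⟨q⁻¹, by rw [← hq, smul_smul, inv_mul_cancel, one_smul]⟩

theorem Eqv.trans {X Y Z : AddSubgroup ℚ} (h : Eqv X Y) (h' : Eqv Y Z) : Eqv X Z := by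
  obtain ⟨q, hq⟩ := h
  obtain ⟨r, hr⟩ := h'
  exact ⟨r * q, by rw [mul_smul, hq, hr]⟩

theorem mem_usmul (q : ℚˣ) (X : AddSubgroup ℚ) (x : ℚ) : x ∈ q • X ↔ (q : ℚ)⁻¹ * x ∈ X := by
  have h0 : x ∈ q • X ↔ ∃ s : ℚ, s ∈ X ∧ (q : ℚ) * s = x := by
    constructor
    · rintro ⟨s, hs, hx⟩
      exact ⟨s, hs, hx⟩
    · rintro ⟨s, hs, hx⟩
      exact ⟨s, hs, hx⟩
  rw [h0]
  constructor
  · rintro ⟨s, hs, rfl⟩
    rw [← mul_assoc, inv_mul_cancel₀ q.ne_zero, one_mul]; exact hs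
  · intro h
    exact ⟨_, h, by rw [← mul_assoc, mul_inv_cancel₀ q.ne_zero, one_mul]⟩

theorem usmul_mem (q : ℚˣ) (X : AddSubgroup ℚ) (x : ℚ) (hx : x ∈ X) : (q : ℚ) * x ∈ q • X := by
  rw [mem_usmul, ← mul_assoc, inv_mul_cancel₀ q.ne_zero, one_mul]; exact hx

theorem b1_eqv (hT : TaskT1) (A : Sn 2) (hA : A ∈ PT) (v : V 2) (hv : v 0 ≠ 0) :
    Eqv (B1 A) (Av A.1 v) := by
  obtain ⟨m, hm, hA⟩ := hA
  have hmQ : (m : ℚ) ≠ 0 := by exact_mod_cast hm
  have hu : (m : ℚ) * v 0 ≠ 0 := mul_ne_zero hmQ hv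
  let u : ℚˣ := Units.mk0 ((m : ℚ) * v 0) hu
  have hsub : u • Av A.1 v ≤ B1 A := by
    intro x hx
    rw [mem_usmul, mem_Av] at hx
    have h1 := (hA _ hx).1
    have h2 : (m : ℚ) * (((u : ℚ)⁻¹ * x) • v) 0 = x := by
      show (m : ℚ) * (((m : ℚ) * v 0)⁻¹ * x * v 0) = x
      field_simp
    rw [h2] at h1
    exact h1
  -- common denominator
  let D : ℤ := (v 0).den * (v 1).den
  have hD : D ≠ 0 := by
    have h1 := (v 0).den_ne_zero
    have h2 := (v 1).den_ne_zero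
    simp only [D]
    exact mul_ne_zero (by exact_mod_cast h1) (by exact_mod_cast h2)
  have hs : (D : ℚ) * v 0 = (((v 0).num * (v 1).den : ℤ) : ℚ) := by
    have h1 := Rat.den_mul_eq_num (v 0)
    simp only [D]
    push_cast
    rw [← h1]; ring
  have ht : (D : ℚ) * v 1 = (((v 1).num * (v 0).den : ℤ) : ℚ) := by
    have h1 := Rat.den_mul_eq_num (v 1)
    simp only [D]
    push_cast
    rw [← h1]; ring
  set s : ℤ := (v 0).num * (v 1).den with hsdef
  set t : ℤ := (v 1).num * (v 0).den with htdef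
  have hs0 : s ≠ 0 := by
    intro h0
    rw [h0, Int.cast_zero] at hs
    rcases mul_eq_zero.1 hs with h | h
    · exact hD (by exact_mod_cast h)
    · exact hv h
  have key : ∀ q ∈ B1 A, ((m : ℚ) * D * q) ∈ Av A.1 v := by
    intro q hq
    rw [mem_Av]
    have hq' : (![q, 0] : V 2) ∈ A.1 := hq
    have h2 := (hA _ hq').2.2
    have h3 : (((m : ℚ) * D * q) • v : V 2) = (m * s) • (![q, 0] : V 2) +
        t • (![0, (m : ℚ) * (![q, 0] : V 2) 0] : V 2) := by
      ext i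
      fin_cases i
      · simp only [Pi.smul_apply, smul_eq_mul, Pi.add_apply, zsmul_eq_mul]
        simp
        rw [← hs]; ring
      · simp only [Pi.smul_apply, smul_eq_mul, Pi.add_apply, zsmul_eq_mul]
        simp
        rw [← ht]; ring
    rw [h3]
    exact A.1.add_mem (A.1.zsmul_mem hq' _) (A.1.zsmul_mem h2 _)
  obtain ⟨q, hq⟩ := hT (u • Av A.1 v) (B1 A) (m * m * s) (mul_ne_zero (mul_ne_zero hm hm) hs0) hsub (by
    intro x hx
    rw [mem_usmul]
    have h1 := key x hx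
    have h2 : (u : ℚ)⁻¹ * (((m * m * s : ℤ) : ℚ) * x) = (m : ℚ) * D * x := by
      show ((m : ℚ) * v 0)⁻¹ * (((m * m * s : ℤ) : ℚ) * x) = (m : ℚ) * D * x
      push_cast
      rw [← hs]
      field_simp
    rw [h2]; exact h1)
  exact Eqv.trans ⟨q, hq⟩ ⟨u⁻¹, by rw [smul_smul, inv_mul_cancel, one_smul]⟩

theorem b2_eqv (A : Sn 2) (v : V 2) (hv : v 0 = 0) (hv1 : v 1 ≠ 0) :
    Eqv (B2 A) (Av A.1 v) := by
  let u : ℚˣ := Units.mk0 (v 1) hv1
  refine ⟨u⁻¹, ?_⟩
  ext x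
  rw [mem_usmul, mem_Av]
  have h1 : ((u⁻¹ : ℚˣ) : ℚ)⁻¹ * x = v 1 * x := by
    rw [Units.val_inv_eq_inv_val, inv_inv]; rfl
  rw [h1]
  show (![0, v 1 * x] : V 2) ∈ A.1 ↔ _
  have h2 : (![0, v 1 * x] : V 2) = x • v := by
    ext i
    fin_cases i
    · simp [hv]
    · simp [mul_comm]
  rw [h2]

theorem av_smul (A : Sn 2) (h : GQ 2) (v : V 2) : Av (h • A).1 (h v) = Av A.1 v := by
  ext x
  rw [mem_Av, mem_Av, mem_smul]
  have : h⁻¹ (x • h v) = x • v := by
    rw [map_smul]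
    congr 1
    exact h.symm_apply_apply v
  rw [this]

theorem t : TaskT2 := by
  intro hT A h hA hB
  let e1 : V 2 := ![1, 0]
  let e2 : V 2 := ![0, 1]
  have hv2 : ∀ v : V 2, v ≠ 0 → v 0 = 0 → v 1 ≠ 0 := by
    intro v hv h0 h1
    apply hv
    ext i
    fin_cases i
    · exact h0
    · exact h1
  have he1 : e1 ≠ 0 := by
    intro h0
    have := congrFun h0 0
    simp [e1] at this
  have he2 : e2 ≠ 0 := by
    intro h0
    have := congrFun h0 1
    simp [e2] at this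
  have hdec : ∀ v : V 2, v = v 0 • e1 + v 1 • e2 := by
    intro v
    ext i
    fin_cases i <;> simp [e1, e2]
  -- general transfer
  have T11 : ∀ v : V 2, v 0 ≠ 0 → (h v) 0 ≠ 0 → Eqv (B1 A) (B1 (h • A)) := by
    intro v h0 h1
    have a := b1_eqv hT A hA v h0
    have b := b1_eqv hT (h • A) hB (h v) h1
    rw [av_smul] at b
    exact a.trans b.symm
  have hh2 : h e2 ≠ 0 := by
    intro h0
    exact he2 (by simpa using h0)
  by_cases hc : (h e2) 0 = 0
  · have h1 : (h e1) 0 ≠ 0 := by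
      intro h0
      -- then h is not surjective
      obtain ⟨w, hw⟩ := h.surjective e1
      have h3 : (h w) 0 = 0 := by
        rw [hdec w, map_add, map_smul, map_smul]
        simp [h0, hc]
      rw [hw] at h3
      simp [e1] at h3
    have a := T11 e1 (by simp [e1]) h1
    have b := b2_eqv A e2 (by simp [e2]) (by simp [e2])
    have c := b2_eqv (h • A) (h e2) hc (hv2 _ hh2 hc)
    rw [av_smul] at c
    obtain ⟨q1, hq1⟩ := a
    obtain ⟨q2, hq2⟩ := b.trans c.symm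
    exact ⟨q1, q2, hq1, hq2⟩
  · -- v = e1 or e1 + e2
    have hex : ∃ v : V 2, v 0 ≠ 0 ∧ (h v) 0 ≠ 0 := by
      by_cases h1 : (h e1) 0 = 0
      · refine ⟨e1 + e2, by simp [e1, e2], ?_⟩
        rw [map_add]
        show (h e1) 0 + (h e2) 0 ≠ 0
        rw [h1, zero_add]; exact hc
      · exact ⟨e1, by simp [e1], h1⟩
    obtain ⟨v, hv0, hv1⟩ := hex
    have a := T11 v hv0 hv1
    -- B2 A ~ B1 (hA)
    have b := b2_eqv A e2 (by simp [e2]) (by simp [e2])
    have c := b1_eqv hT (h • A) hB (h e2) hc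
    rw [av_smul] at c
    have d : Eqv (B2 A) (B1 (h • A)) := b.trans c.symm
    -- B2 (hA) ~ B1 A
    obtain ⟨w, hw⟩ := h.surjective e2
    have hw0 : w 0 ≠ 0 := by
      intro h0
      apply hc
      have h3 : e2 = w 1 • h e2 := by
        conv_lhs => rw [← hw, hdec w, h0, zero_smul, zero_add, map_smul]
      have h4 : w 1 * (h e2) 0 = 0 := by
        have h5 := congrFun h3 0
        have h6 : e2 0 = 0 := by simp [e2]
        rw [h6] at h5
        exact h5.symm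
      have h7 : w 1 ≠ 0 := by
        intro h8
        rw [h8, zero_smul] at h3
        exact he2 h3
      exact (mul_eq_zero.1 h4).resolve_left h7
    have e := b1_eqv hT A hA w hw0
    have f := b2_eqv (h • A) e2 (by simp [e2]) (by simp [e2])
    have g : Av (h • A).1 e2 = Av A.1 w := by rw [← hw, av_smul]
    rw [g] at f
    have k : Eqv (B1 A) (B2 (h • A)) := e.trans f.symm
    obtain ⟨q2, hq2⟩ := (d.trans a.symm).trans k
    obtain ⟨q1, hq1⟩ := a
    exact ⟨q1, q2, hq1, hq2⟩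

end Pool.Agent.H12R3.EFT2
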