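import Pool.Agent.H12R3.EF.T2

/-! Project H418-EF: `TaskT4`. -/

set_option autoImplicit false

namespace Pool.Agent.H12R3.EFT4

open scoped Pointwise
open Pool.Agent.H418R3.EF Pool.Agent.H12R3.EFT2

/-- pairs of subgroups of the rationals -/
def W : Type := AddSubgroup ℚ × AddSubgroup ℚ

instance : MeasurableSpace W := inferInstanceAs (MeasurableSpace (AddSubgroup ℚ × AddSubgroup ℚ))

instance actW : MulAction (ℚˣ × ℚˣ) W where
  smul g x := (g.1 • x.1, g.2 • x.2)
  one_smul x := Prod.ext (one_smul ℚˣ x.1) (one_smul ℚˣ x.2)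
  mul_smul g h x := Prod.ext (mul_smul g.1 h.1 x.1) (mul_smul g.2 h.2 x.2)

theorem smulW (g : ℚˣ × ℚˣ) (x : W) : g • x = ((g.1 • x.1, g.2 • x.2) : W) := rfl

theorem meas_to {X : Type} [MeasurableSpace X] (f : X → AddSubgroup ℚ)
    (h : ∀ v : ℚ, MeasurableSet {x | v ∈ f x}) : Measurable f := by
  rw [measurable_iff_comap_le]
  change MeasurableSpace.comap f (MeasurableSpace.comap _ MeasurableSpace.pi) ≤ _
  rw [MeasurableSpace.comap_comp, ← measurable_iff_comap_le]
  exact measurable_pi_lambda _ (fun v => measurableSet_setOf.1 (h v))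

theorem meas_mem (v : ℚ) : MeasurableSet {X : AddSubgroup ℚ | v ∈ X} := by
  apply measurableSet_setOf.2
  have h1 : Measurable (fun X : AddSubgroup ℚ => fun v : ℚ => v ∈ X) := comap_measurable _
  exact (measurable_pi_apply v).comp h1

theorem meas_usmul (q : ℚˣ) : Measurable (fun X : AddSubgroup ℚ => q • X) := by
  apply meas_to
  intro v
  have : {X : AddSubgroup ℚ | v ∈ q • X} = {X : AddSubgroup ℚ | (q : ℚ)⁻¹ * v ∈ X} := by
    ext X; exact mem_usmul q X v
  rw [this]; exact meas_mem _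

theorem meas_eq {X : Type} [MeasurableSpace X] (f g : X → AddSubgroup ℚ)
    (hf : Measurable f) (hg : Measurable g) : MeasurableSet {x | f x = g x} := by
  have : {x | f x = g x} = {x | ∀ v : ℚ, v ∈ f x ↔ v ∈ g x} := by
    ext x
    exact ⟨fun h v => by rw [show f x = g x from h], fun h => AddSubgroup.ext h⟩
  rw [this]
  apply measurableSet_setOf.2
  apply Measurable.forall
  intro v
  apply Measurable.iff
  · exact measurableSet_setOf.1 (hf (meas_mem v))
  · exact measurableSet_setOf.1 (hg (meas_mem v))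

theorem meas_actW (g : ℚˣ × ℚˣ) : Measurable (fun x : W => g • x) := by
  have h1 : Measurable (fun x : AddSubgroup ℚ × AddSubgroup ℚ => (g.1 • x.1, g.2 • x.2)) :=
    ((meas_usmul g.1).comp measurable_fst).prodMk ((meas_usmul g.2).comp measurable_snd)
  exact h1

theorem meas_eqW {X : Type} [MeasurableSpace X] (f g : X → W)
    (hf : Measurable f) (hg : Measurable g) : MeasurableSet {x | f x = g x} := by
  have hf1 : Measurable (fun x => (f x).1) := Measurable.fst (β := AddSubgroup ℚ) (γ := AddSubgroup ℚ) hf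
  have hf2 : Measurable (fun x => (f x).2) := Measurable.snd (β := AddSubgroup ℚ) (γ := AddSubgroup ℚ) hf
  have hg1 : Measurable (fun x => (g x).1) := Measurable.fst (β := AddSubgroup ℚ) (γ := AddSubgroup ℚ) hg
  have hg2 : Measurable (fun x => (g x).2) := Measurable.snd (β := AddSubgroup ℚ) (γ := AddSubgroup ℚ) hg
  have : {x | f x = g x} = {x | (f x).1 = (g x).1} ∩ {x | (f x).2 = (g x).2} := by
    ext x
    exact Prod.ext_iff
  rw [this]
  exact (meas_eq _ _ hf1 hg1).inter (meas_eq _ _ hf2 hg2)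

/-- the pair of a group -/
def fW (A : Sn 2) : W := (B1 A, B2 A)

def PF (A : Sn 2) (F : Finset (V 2)) : Prop := ∀ v : V 2, v ∈ A.1 ↔
  ∃ (x y : ℚ) (w : V 2), x ∈ B1 A ∧ y ∈ B2 A ∧ w ∈ AddSubgroup.closure (F : Set (V 2)) ∧
    v = ![x, y] + w

open Classical in
/-- the code of `A` -/
noncomputable def code (e : ℕ → Finset (V 2)) (A : Sn 2) : ℕ :=
  if h : ∃ n, PF A (e n) then Nat.find h else 0

theorem code_spec (e : ℕ → Finset (V 2)) (A : Sn 2) (h : ∃ n, PF A (e n)) (k : ℕ) :
    code e A = k ↔ PF A (e k) ∧ ∀ m < k, ¬ PF A (e m) := by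
  classical
  unfold code
  rw [dif_pos h]
  convert Nat.find_eq_iff h

theorem t : TaskT4 := by
  intro hAb hT1 hT2 hT3 hStd hMeas
  obtain ⟨hcG, -, hact, hstab, hmem⟩ := hStd 2
  have hPT : MeasurableSet PT := hMeas.2.2.2
  have hB1 : Measurable B1 := by
    apply meas_to
    intro v
    exact hmem ![v, 0]
  have hB2 : Measurable B2 := by
    apply meas_to
    intro v
    exact hmem ![0, v]
  have hfW : Measurable fW := by
    have : Measurable (fun A : Sn 2 => ((B1 A, B2 A) : AddSubgroup ℚ × AddSubgroup ℚ)) :=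
      hB1.prodMk hB2
    exact this
  have hcU : Countable ℚˣ := Function.Injective.countable (f := fun q : ℚˣ => (q : ℚ)) Units.val_injective
  have hcUU : Countable (ℚˣ × ℚˣ) := inferInstance
  obtain ⟨Γ, iG, iC, β, ℓ, hc, hs, hm, hl⟩ := hAb (ℚˣ × ℚˣ) (fun a b => mul_comm a b) W
    (fun g => meas_actW g) (fun g => meas_eqW _ _ (meas_actW g) measurable_id)
  obtain ⟨e, he⟩ := exists_surjective_nat (Finset (V 2))
  have horb : ∀ A ∈ PT, ∀ A' ∈ PT, (∃ g : GQ 2, g • A = A') →
      ∃ q : ℚˣ × ℚˣ, q • fW A = fW A' := by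
    rintro A hA A' hA' ⟨g, rfl⟩
    obtain ⟨q1, q2, h1, h2⟩ := hT2 hT1 A g hA hA'
    exact ⟨(q1, q2), Prod.ext h1 h2⟩
  have hex : ∀ A ∈ PT, ∃ n, PF A (e n) := by
    intro A hA
    obtain ⟨F, hF⟩ := hT3 A hA
    obtain ⟨n, rfl⟩ := he F
    exact ⟨n, hF⟩
  refine ⟨Γ, iG, iC, fun y x => β (fW y) (fW x), fun x => Nat.pair (ℓ (fW x)) (code e x),
    ?_, ?_, ?_, ?_⟩
  · intro x hx y hy z hz hxy hyz
    exact hc _ (Set.mem_univ _) _ (Set.mem_univ _) _ (Set.mem_univ _) (horb x hx y hy hxy)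
      (horb y hy z hz hyz)
  · intro x hx y hy hxy hβ hℓ
    have h1 := Nat.pair_eq_pair.1 hℓ
    have h2 : fW x = fW y := hs _ (Set.mem_univ _) _ (Set.mem_univ _) (horb x hx y hy hxy) hβ h1.1
    have h3 := ((code_spec e x (hex x hx) (code e x)).1 rfl).1
    have h4 := ((code_spec e y (hex y hy) (code e y)).1 rfl).1
    rw [← h1.2] at h4
    have hb1 : B1 x = B1 y := congrArg Prod.fst h2
    have hb2 : B2 x = B2 y := congrArg Prod.snd h2
    apply Subtype.ext
    apply AddSubgroup.ext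
    intro v
    rw [h3 v, h4 v, hb1, hb2]
  · intro g γ
    have hEq : {x : Sn 2 | x ∈ PT ∧ g • x ∈ PT ∧ β (fW (g • x)) (fW x) = γ} =
        (PT ∩ (fun x : Sn 2 => g • x) ⁻¹' PT) ∩ ⋃ q : ℚˣ × ℚˣ,
          ({x | q • fW x = fW (g • x)} ∩ fW ⁻¹' {w : W | w ∈ (Set.univ : Set W) ∧
            q • w ∈ (Set.univ : Set W) ∧ β (q • w) w = γ}) := by
      ext x
      simp only [Set.mem_setOf_eq, Set.mem_inter_iff, Set.mem_preimage, Set.mem_iUnion,
        Set.mem_univ, true_and]
      constructor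
      · rintro ⟨h1, h2, h3⟩
        obtain ⟨q, hq⟩ := horb x h1 (g • x) h2 ⟨g, rfl⟩
        exact ⟨⟨h1, h2⟩, q, hq, by rw [hq]; exact h3⟩
      · rintro ⟨⟨h1, h2⟩, q, hq, h3⟩
        exact ⟨h1, h2, by rw [← hq]; exact h3⟩
    show MeasurableSet {x : Sn 2 | x ∈ PT ∧ g • x ∈ PT ∧ β (fW (g • x)) (fW x) = γ}
    rw [hEq]
    refine (hPT.inter (hact g hPT)).inter (MeasurableSet.iUnion (fun q => ?_))
    refine (meas_eqW _ _ ((meas_actW q).comp hfW) (hfW.comp (hact g))).inter (hfW ?_)
    exact hm q γ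
  · intro k
    have hPF : ∀ F : Finset (V 2), Measurable (fun A : Sn 2 => PF A F) := by
      intro F
      unfold PF
      apply Measurable.forall
      intro v
      apply Measurable.iff
      · exact measurableSet_setOf.1 (hmem v)
      · apply Measurable.exists
        intro x
        apply Measurable.exists
        intro y
        apply Measurable.exists
        intro w
        apply Measurable.and
        · exact measurableSet_setOf.1 (hmem ![x, 0])
        · apply Measurable.and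
          · exact measurableSet_setOf.1 (hmem ![0, y])
          · exact measurable_const
    have hEq : {x : Sn 2 | x ∈ PT ∧ Nat.pair (ℓ (fW x)) (code e x) = k} =
        (PT ∩ fW ⁻¹' {w : W | w ∈ (Set.univ : Set W) ∧ ℓ w = k.unpair.1}) ∩
          {x | PF x (e k.unpair.2) ∧ ∀ m < k.unpair.2, ¬ PF x (e m)} := by
      ext x
      simp only [Set.mem_setOf_eq, Set.mem_inter_iff, Set.mem_preimage, Set.mem_univ, true_and]
      constructor
      · rintro ⟨h1, h2⟩
        have h3 : ℓ (fW x) = k.unpair.1 := by rw [← h2, Nat.unpair_pair]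
        have h4 : code e x = k.unpair.2 := by rw [← h2, Nat.unpair_pair]
        exact ⟨⟨h1, h3⟩, (code_spec e x (hex x h1) _).1 h4⟩
      · rintro ⟨⟨h1, h2⟩, h3⟩
        refine ⟨h1, ?_⟩
        rw [h2, (code_spec e x (hex x h1) _).2 h3, Nat.pair_unpair]
    show MeasurableSet {x : Sn 2 | x ∈ PT ∧ Nat.pair (ℓ (fW x)) (code e x) = k}
    rw [hEq]
    refine (hPT.inter (hfW (hl _))).inter (measurableSet_setOf.2 ?_)
    apply Measurable.and (hPF _)
    apply Measurable.forall
    intro m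
    apply Measurable.imp measurable_const
    exact (hPF (e m)).not

end Pool.Agent.H12R3.EFT4
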